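import Mathlib
import Pool.Agent.H411R3.FrogModel
import Pool.Agent.H411R3.FrogQ2
import Pool.Agent.H411R3.FrogDev

/-!
# Multi-walker cover time: no concentration when it stays bounded

The model (simple random walk, `m` walks from uniform starting points, cover time) is defined in
`Pool.Agent.H411R3.FrogModel`.
-/

open MeasureTheory ProbabilityTheory Set Filter H411Frog
open scoped ENNReal NNReal Topology

namespace Pool.Agent.Results.MP_4d31e4_pr.CoverTimeNoConc

/-- The assertion of Q2: concentration of `D(G_n, m_n)` around its mean for all sequences of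
finite connected vertex-transitive graphs with `|V_n| → ∞` and all `m_n → ∞`. -/
def Concentration : Prop :=
  ∀ (N : ℕ → ℕ) (G : ∀ n, SimpleGraph (Fin (N n))) (m : ℕ → ℕ),
    (∀ n, (G n).Connected) → (∀ n, VertexTransitive (G n)) → Tendsto N atTop atTop →
    Tendsto m atTop atTop →
    ∀ ε : ℝ, 0 < ε → Tendsto (fun n => (walkersLaw (G n) (m n)).real
      {ω | ε ≤ |(coverTime ω).toReal / (meanCover (G n) (m n)).toReal - 1|})
      atTop (𝓝 0)

lemma coverEvent_eq {V : Type*} (m k : ℕ) :
    {ω : Fin m → V × Steps V | coverTime ω ≤ k} = coverEvent V m k := by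
  ext ω
  constructor
  · intro h
    by_contra hc
    have h1 := le_coverTime_of_notMem hc
    have h2 : (k : ℝ≥0∞) + 1 ≤ k := h1.trans h
    have h3 : ((k + 1 : ℕ) : ℝ≥0∞) ≤ (k : ℕ) := by exact_mod_cast h2
    have h4 : k + 1 ≤ k := by exact_mod_cast h3
    omega
  · exact fun h => coverTime_le_of_mem h

lemma main (k : ℕ) (N : ℕ → ℕ) (G : ∀ n, SimpleGraph (Fin (N n)))
    (hG : ∀ n, (G n).Connected) (hT : ∀ n, VertexTransitive (G n))
    (hN : Tendsto N atTop atTop) :
    ∃ m : ℕ → ℕ, Tendsto m atTop atTop ∧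
      ∀ n, 2 * k + 3 ≤ N n →
        1 / 2 ≤ (walkersLaw (G n) (m n)).real {ω | coverTime ω ≤ k} ∧
        (walkersLaw (G n) (m n)).real {ω | coverTime ω ≤ k} ≤ 1 / 2 + (k + 1) / N n ∧
        meanCover (G n) (m n) ≠ 0 ∧ meanCover (G n) (m n) ≠ ∞ ∧
        ∀ a : ℝ, 0 < a → 1 / 2 - (k + 1) / N n ≤ (walkersLaw (G n) (m n)).real
          {ω | 1 / (2 * k + 1 : ℝ) ≤ |(coverTime ω).toReal / a - 1|} := by
  have hex : ∀ n, ∃ m, 2 * k + 3 ≤ N n → (N n ≤ m * (k + 1) ∧
      1 / 2 ≤ (walkersLaw (G n) m).real (coverEvent (Fin (N n)) m k) ∧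
      (walkersLaw (G n) m).real (coverEvent (Fin (N n)) m k) ≤ 1 / 2 + (k + 1) / N n) := by
    intro n
    by_cases h : 2 * k + 3 ≤ N n
    · haveI : Nonempty (Fin (N n)) := (hG n).nonempty
      have v0 : Fin (N n) := Classical.arbitrary _
      have hd : ∀ v, ((G n).neighborSet v).ncard = ((G n).neighborSet v0).ncard :=
        fun v => regular_of_transitive (hT n) v0 v
      have hd0 := connected_neighbor_ne_zero (hG n) (by rw [Fintype.card_fin]; omega) hd
      obtain ⟨m, h1, h2, h3⟩ := exists_cover_half (G n) hd hd0 k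
      rw [Fintype.card_fin] at h1 h3
      exact ⟨m, fun _ => ⟨h1, h2, h3⟩⟩
    · exact ⟨0, fun h' => absurd h' h⟩
  choose m hm using hex
  refine ⟨m, ?_, ?_⟩
  · rw [tendsto_atTop]
    intro b
    filter_upwards [hN.eventually_ge_atTop (2 * k + 3), hN.eventually_ge_atTop (b * (k + 1))]
      with n h1 h2
    have h3 := (hm n h1).1
    exact Nat.le_of_mul_le_mul_right (h2.trans h3) (Nat.succ_pos k)
  · intro n hn
    have : Nonempty (Fin (N n)) := (hG n).nonempty
    obtain ⟨h1, h2, h3⟩ := hm n hn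
    have hmpos : 0 < m n := by
      rcases Nat.eq_zero_or_pos (m n) with h0 | h0
      · rw [h0, zero_mul] at h1; omega
      · exact h0
    have hlt : ((k : ℝ) + 1) / N n < 1 / 2 := by
      have : (0 : ℝ) < N n := by
        have : 0 < N n := by omega
        exact_mod_cast this
      rw [div_lt_div_iff₀ this (by norm_num)]
      have h4 : ((2 * k + 3 : ℕ) : ℝ) ≤ N n := by exact_mod_cast hn
      push_cast at h4
      linarith
    refine ⟨?_, ?_, ?_, meanCover_ne_top (G n) (hG n) hmpos, ?_⟩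
    · rw [coverEvent_eq]; exact h2
    · rw [coverEvent_eq]; exact h3
    · refine mean_ne_zero _ _ (measurable_coverTime (m n)) (coverEvent (Fin (N n)) (m n) k)
        (measurableSet_coverEvent (m n) k) ?_ (by linarith)
      intro ω hω
      exact le_trans (by simp) (le_coverTime_of_notMem hω)
    · intro a ha
      have hpos : (0 : ℝ) ≤ (k + 1) / N n := by positivity
      exact dev_of_split (walkersLaw (G n) (m n)) coverTime (measurable_coverTime (m n))
        (meanCover_ne_top (G n) (hG n) hmpos) k (coverEvent (Fin (N n)) (m n) k)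
        (measurableSet_coverEvent (m n) k) (fun ω hω => coverTime_le_of_mem hω)
        (fun ω hω => le_coverTime_of_notMem hω) (1 / 2 - (k + 1) / N n) (by linarith)
        (by linarith) a ha

/-- **Negative answer to Q2.**  For every `k ≥ 0` and every sequence of finite connected
vertex-transitive graphs with `|V_n| → ∞` there are `m_n → ∞` such that, as soon as
`|V_n| ≥ 2 k + 3`, the probability that `D(G_n, m_n) ≤ k` lies between `1/2` and
`1/2 + (k+1)/|V_n|`, the mean of `D(G_n, m_n)` is positive and finite, and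
`|D(G_n, m_n)/a - 1| ≥ 1/(2k+1)` with probability at least `1/2 - (k+1)/|V_n|` for every
normalization `a > 0`, in particular for the mean.  Hence the assertion of Q2 is false. -/
theorem result :
    (∀ (k : ℕ) (N : ℕ → ℕ) (G : ∀ n, SimpleGraph (Fin (N n))),
      (∀ n, (G n).Connected) → (∀ n, VertexTransitive (G n)) → Tendsto N atTop atTop →
      ∃ m : ℕ → ℕ, Tendsto m atTop atTop ∧
        ∀ n, 2 * k + 3 ≤ N n →
          1 / 2 ≤ (walkersLaw (G n) (m n)).real {ω | coverTime ω ≤ k} ∧
          (walkersLaw (G n) (m n)).real {ω | coverTime ω ≤ k} ≤ 1 / 2 + (k + 1) / N n ∧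
          meanCover (G n) (m n) ≠ 0 ∧ meanCover (G n) (m n) ≠ ∞ ∧
          ∀ a : ℝ, 0 < a → 1 / 2 - (k + 1) / N n ≤ (walkersLaw (G n) (m n)).real
            {ω | 1 / (2 * k + 1 : ℝ) ≤ |(coverTime ω).toReal / a - 1|}) ∧
    ¬ Concentration := by
  refine ⟨fun k N G hG hT hN => main k N G hG hT hN, ?_⟩
  intro hconc
  obtain ⟨m, h1, h3⟩ := main 0 (fun n => n + 1) (fun n => ⊤)
    (fun n => connected_top n) (fun n => transitive_top (n + 1)) (tendsto_add_atTop_nat 1)
  have h4 := hconc (fun n => n + 1) (fun n => ⊤) m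
    (fun n => connected_top n) (fun n => transitive_top (n + 1)) (tendsto_add_atTop_nat 1)
    h1 1 (by norm_num)
  have h5 := (h4.eventually (gt_mem_nhds (show (0 : ℝ) < 1 / 4 by norm_num))).and
    (eventually_ge_atTop 3)
  obtain ⟨n, hn1, hn2⟩ := h5.exists
  obtain ⟨_, _, h6, h7, h8⟩ := h3 n (by omega)
  have h9 := h8 (meanCover (⊤ : SimpleGraph (Fin (n + 1))) (m n)).toReal
    (ENNReal.toReal_pos h6 h7)
  have h10 : (1 / (2 * ((0 : ℕ) : ℝ) + 1) : ℝ) = 1 := by norm_num
  rw [h10] at h9
  have h11 : (((0 : ℕ) : ℝ) + 1) / ((n + 1 : ℕ) : ℝ) ≤ 1 / 4 := by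
    rw [div_le_div_iff₀ (by positivity) (by norm_num)]
    have : (3 : ℝ) ≤ n := by exact_mod_cast hn2
    push_cast
    linarith
  linarith

end Pool.Agent.Results.MP_4d31e4_pr.CoverTimeNoConc
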