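import Mathlib
import Pool.Agent.H411R3.FrogModel
import Pool.Agent.H411R3.FrogQ1b
import Pool.Agent.H411R3.FrogHit
import Pool.Agent.H411R3.FrogDev

/-!
# Susceptibility of the frog model: no concentration when it stays bounded

The model (simple random walk, frog model, reached set, susceptibility) is defined in
`Pool.Agent.H411R3.FrogModel`.
-/

open MeasureTheory ProbabilityTheory Set Filter H411Frog
open scoped ENNReal NNReal Topology

namespace Pool.Agent.Results.MP_4d31e4_pr.SusceptibilityNoConc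

/-- The assertion of Q1: concentration of `S(G_n)` around its mean for all sequences of finite
connected vertex-transitive graphs with `|V_n| → ∞` and all `lam_n > 0` with
`lam_n |V_n| → ∞`. -/
def Concentration : Prop :=
  ∀ (N : ℕ → ℕ) (G : ∀ n, SimpleGraph (Fin (N n))) (o : ∀ n, Fin (N n)) (lam : ℕ → ℝ≥0),
    (∀ n, (G n).Connected) → (∀ n, VertexTransitive (G n)) → Tendsto N atTop atTop →
    (∀ n, 0 < lam n) → Tendsto (fun n => (lam n : ℝ) * N n) atTop atTop →
    ∀ ε : ℝ, 0 < ε → Tendsto (fun n => (frogLaw (G n) (lam n)).real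
      {ω | ε ≤ |(suscept (o n) ω).toReal / (meanSuscept (G n) (o n) (lam n)).toReal - 1|})
      atTop (𝓝 0)

lemma frogEvent_eq {V : Type*} (o : V) (k : ℕ) :
    {ω : FrogSpace V | suscept o ω ≤ k} = frogEvent o k := by
  ext ω
  constructor
  · intro h
    by_contra hc
    have h1 := le_suscept_of_notMem hc
    have h2 : (k : ℝ≥0∞) + 1 ≤ k := h1.trans h
    have h3 : ((k + 1 : ℕ) : ℝ≥0∞) ≤ (k : ℕ) := by exact_mod_cast h2
    have h4 : k + 1 ≤ k := by exact_mod_cast h3
    omega
  · exact fun h => suscept_le_of_mem h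

lemma main (k : ℕ) (hk : 1 ≤ k) (N : ℕ → ℕ) (G : ∀ n, SimpleGraph (Fin (N n)))
    (o : ∀ n, Fin (N n)) (hG : ∀ n, (G n).Connected) (hN : Tendsto N atTop atTop) :
    ∃ lam : ℕ → ℝ≥0, (∀ n, 0 < lam n) ∧
      Tendsto (fun n => (lam n : ℝ) * N n) atTop atTop ∧
      ∀ n, k + 2 ≤ N n →
        (frogLaw (G n) (lam n)).real {ω | suscept (o n) ω ≤ k} = 1 / 2 ∧
        meanSuscept (G n) (o n) (lam n) ≠ 0 ∧ meanSuscept (G n) (o n) (lam n) ≠ ∞ ∧
        ∀ a : ℝ, 0 < a → 1 / 2 ≤ (frogLaw (G n) (lam n)).real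
          {ω | 1 / (2 * k + 1 : ℝ) ≤ |(suscept (o n) ω).toReal / a - 1|} := by
  have hex : ∀ n, ∃ lam : ℝ≥0, 0 < lam ∧
      (k + 2 ≤ N n → (frogLaw (G n) lam).real (frogEvent (o n) k) = 1 / 2) := by
    intro n
    by_cases h : k + 2 ≤ N n
    · obtain ⟨lam, h1, h2⟩ := exists_half (G n) (hG n) (o n) k hk (by simpa using h)
      exact ⟨lam, h1, fun _ => h2⟩
    · exact ⟨1, one_pos, fun h' => absurd h' h⟩
  choose lam hlam1 hlam2 using hex
  refine ⟨lam, hlam1, ?_, ?_⟩
  · have h1 : Tendsto (fun n => ((N n : ℝ) - (k + 1)) / (2 * (k + 1))) atTop atTop := by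
      refine Tendsto.atTop_div_const (by positivity) ?_
      exact tendsto_atTop_add_const_right _ _ (tendsto_natCast_atTop_atTop.comp hN)
    refine tendsto_atTop_mono' _ ?_ h1
    filter_upwards [hN.eventually_ge_atTop (k + 2)] with n hn
    have := lower_of_half (G n) (o n) k (hlam2 n hn)
    simpa using this
  · intro n hn
    have hhalf := hlam2 n hn
    refine ⟨?_, ?_, meanSuscept_ne_top (G n) (hG n) (o n) (lam n), ?_⟩
    · rw [frogEvent_eq]; exact hhalf
    · refine mean_ne_zero _ _ (measurable_suscept (o n)) (frogEvent (o n) k)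
        (measurableSet_frogEvent (o n) k) ?_ (by rw [hhalf]; norm_num)
      intro ω hω
      exact le_trans (by simp) (le_suscept_of_notMem hω)
    · intro a ha
      exact dev_of_split (frogLaw (G n) (lam n)) (suscept (o n)) (measurable_suscept (o n))
        (meanSuscept_ne_top (G n) (hG n) (o n) (lam n)) k (frogEvent (o n) k)
        (measurableSet_frogEvent (o n) k) (fun ω hω => suscept_le_of_mem hω)
        (fun ω hω => le_suscept_of_notMem hω) (1 / 2) hhalf.ge (by rw [hhalf]; norm_num) a ha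

/-- **Negative answer to Q1.**  For every `k ≥ 1` and every sequence of finite connected graphs
with `|V_n| → ∞` (vertex-transitive or not) there are densities `lam_n > 0` with
`lam_n |V_n| → ∞` such that `S(G_n) ≤ k` with probability exactly `1/2` as soon as
`|V_n| ≥ k + 2`, the mean of `S(G_n)` is positive and finite, and
`|S(G_n)/a - 1| ≥ 1/(2k+1)` with probability at least `1/2` for every normalization `a > 0`, in
particular for the mean of `S(G_n)`.  Hence the assertion of Q1 is false. -/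
theorem result :
    (∀ k : ℕ, 1 ≤ k → ∀ (N : ℕ → ℕ) (G : ∀ n, SimpleGraph (Fin (N n))) (o : ∀ n, Fin (N n)),
      (∀ n, (G n).Connected) → Tendsto N atTop atTop →
      ∃ lam : ℕ → ℝ≥0, (∀ n, 0 < lam n) ∧
        Tendsto (fun n => (lam n : ℝ) * N n) atTop atTop ∧
        ∀ n, k + 2 ≤ N n →
          (frogLaw (G n) (lam n)).real {ω | suscept (o n) ω ≤ k} = 1 / 2 ∧
          meanSuscept (G n) (o n) (lam n) ≠ 0 ∧ meanSuscept (G n) (o n) (lam n) ≠ ∞ ∧
          ∀ a : ℝ, 0 < a → 1 / 2 ≤ (frogLaw (G n) (lam n)).real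
            {ω | 1 / (2 * k + 1 : ℝ) ≤ |(suscept (o n) ω).toReal / a - 1|}) ∧
    ¬ Concentration := by
  refine ⟨fun k hk N G o hG hN => main k hk N G o hG hN, ?_⟩
  intro hconc
  obtain ⟨lam, h1, h2, h3⟩ := main 1 le_rfl (fun n => n + 1) (fun n => ⊤) (fun n => 0)
    (fun n => connected_top n) (tendsto_add_atTop_nat 1)
  have h4 := hconc (fun n => n + 1) (fun n => ⊤) (fun n => 0) lam
    (fun n => connected_top n) (fun n => transitive_top (n + 1)) (tendsto_add_atTop_nat 1)
    h1 h2 (1 / 3) (by norm_num)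
  have h5 := (h4.eventually (gt_mem_nhds (show (0 : ℝ) < 1 / 2 by norm_num))).and
    (eventually_ge_atTop 2)
  obtain ⟨n, hn1, hn2⟩ := h5.exists
  obtain ⟨_, h6, h7, h8⟩ := h3 n (by omega)
  have h9 := h8 (meanSuscept (⊤ : SimpleGraph (Fin (n + 1))) 0 (lam n)).toReal
    (ENNReal.toReal_pos h6 h7)
  have h10 : (1 / (2 * ((1 : ℕ) : ℝ) + 1) : ℝ) = 1 / 3 := by norm_num
  rw [h10] at h9
  exact absurd hn1 (not_lt.2 h9)

end Pool.Agent.Results.MP_4d31e4_pr.SusceptibilityNoConc
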